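import Mathlib
import Pool.Agent.Helper903.ES.Main

/-!
# The inverse Turán number of paths of odd length

For every `t ≥ 1`, `ex⁻¹(k, P_{2t+1}) = C(⌊k/t⌋, 2) + o(k²)`.

Upper bound.  Let `ex(G, P_{2t+1}) < k`.  A disjoint union of complete bipartite graphs `K_{s,A}`
with `s ≤ t` has no `P_{2t+1}` (`pieces_free`).  With `s = 1` this shows that fewer than `2 k`
vertices are not isolated (`card_nonisolated`).  The vertices of degree less than `η k` carry at
most `2 η k²` edges.  A greedy choice gives a bounded number of disjoint `t`-sets such that almost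
every other vertex is complete to one of them (`covering`), so the number `N` of vertices of large
degree satisfies `t N (1 - o(1)) ≤ ex(G, P_{2t+1}) < k`, and `G` has at most
`N² / 2 + o(k²) ≤ k² / (2 t²) + o(k²)` edges (`upper`).

Lower bound.  The complete graph with `⌊(k-1)/t⌋` vertices, with the theorem of Erdős and Gallai
(as a case of the Erdős–Sós theorem for trees of the starting library).
-/

set_option autoImplicit false

namespace Pool.Agent.Results.MP_002b89_co.OddPaths

open SimpleGraph Finset Filter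

/-- `ex(G, F)`: the largest number of edges in a subgraph of `G` with no copy of `F`. -/
noncomputable def exIn {V W : Type} (G : SimpleGraph V) (F : SimpleGraph W) : ℕ :=
  sSup {m | ∃ H : SimpleGraph V, H ≤ G ∧ F.Free H ∧ H.edgeSet.ncard = m}

/-- The numbers of edges of the graphs `G` with `ex(G, F) < k`. -/
def hosts {W : Type} (k : ℕ) (F : SimpleGraph W) : Set ℕ :=
  {m | ∃ (n : ℕ) (G : SimpleGraph (Fin n)), exIn G F < k ∧ G.edgeSet.ncard = m}

/-- The inverse Turán number. -/
noncomputable def exInv {W : Type} (k : ℕ) (F : SimpleGraph W) : ℕ := sSup (hosts k F)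

/-- `P_ℓ`, the path with `ℓ` edges. -/
abbrev path (ℓ : ℕ) : SimpleGraph (Fin (ℓ + 1)) := pathGraph (ℓ + 1)

section basic

variable {V : Type} [Fintype V] {W : Type}

theorem bdd (G : SimpleGraph V) (F : SimpleGraph W) :
    BddAbove {m | ∃ H : SimpleGraph V, H ≤ G ∧ F.Free H ∧ H.edgeSet.ncard = m} := by
  refine ⟨G.edgeSet.ncard, ?_⟩
  rintro m ⟨H, hH, _, rfl⟩
  exact Set.ncard_le_ncard (edgeSet_mono hH) (Set.toFinite _)

theorem le_exIn (G H : SimpleGraph V) (F : SimpleGraph W) (h : H ≤ G) (hF : F.Free H) :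
    H.edgeSet.ncard ≤ exIn G F :=
  le_csSup (bdd G F) ⟨H, h, hF, rfl⟩

end basic

section pieces

variable {V : Type} [Fintype V] [DecidableEq V]

/-- A disjoint union of complete bipartite graphs `K_{s,A}`. -/
def pieces (W : Finset V) (g : V → Finset V) (hg : ∀ v ∈ W, Disjoint (g v) W) : SimpleGraph V where
  Adj x y := (x ∈ W ∧ y ∈ g x) ∨ (y ∈ W ∧ x ∈ g y)
  symm := ⟨fun _ _ h => h.symm⟩
  loopless := ⟨fun x h => by
    rcases h with ⟨h1, h2⟩ | ⟨h1, h2⟩ <;>
    exact (Finset.disjoint_left.1 (hg x h1)) h2 h1⟩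

omit [DecidableEq V] in
theorem pieces_card (W : Finset V) (g : V → Finset V) (hg : ∀ v ∈ W, Disjoint (g v) W)
    (s : ℕ) (hs : ∀ v ∈ W, (g v).card = s) : s * W.card ≤ (pieces W g hg).edgeSet.ncard := by
  classical
  have h1 : (W.sigma g).card = s * W.card := by
    rw [card_sigma, sum_congr rfl hs, sum_const, smul_eq_mul, mul_comm]
  rw [← h1, ← Set.ncard_coe_finset]
  apply Set.ncard_le_ncard_of_injOn (fun p => s(p.1, p.2)) _ _ (Set.toFinite _)
  · rintro ⟨v, w⟩ h
    rw [mem_coe, mem_sigma] at h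
    exact Or.inl h
  · rintro ⟨v, w⟩ h ⟨v', w'⟩ h' he
    rw [mem_coe, mem_sigma] at h h'
    simp only [Sym2.eq, Sym2.rel_iff', Prod.mk.injEq, Prod.swap_prod_mk] at he
    rcases he with ⟨rfl, rfl⟩ | ⟨h2, h3⟩
    · rfl
    · exfalso
      simp only at h h'
      rw [← h2] at h'
      exact (Finset.disjoint_left.1 (hg v' h'.1)) h'.2 h.1

omit [Fintype V] in
theorem pieces_free (W : Finset V) (g : V → Finset V) (hg : ∀ v ∈ W, Disjoint (g v) W)
    (t : ℕ) (hs : ∀ v ∈ W, (g v).card ≤ t)
    (hd : ∀ v ∈ W, ∀ w ∈ W, g v = g w ∨ Disjoint (g v) (g w)) :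
    (path (2 * t + 1)).Free (pieces W g hg) := by
  rintro ⟨φ⟩
  have hinj : Function.Injective φ := φ.injective
  have hadj : ∀ i (hi : i + 1 < 2 * t + 1 + 1),
      (pieces W g hg).Adj (φ ⟨i, by omega⟩) (φ ⟨i + 1, hi⟩) := by
    intro i hi
    apply φ.toHom.map_adj
    rw [pathGraph_adj]
    left; rfl
  -- the vertices as a function on naturals
  by_cases h0 : φ ⟨0, by omega⟩ ∈ W
  · -- even vertices in W
    have key : ∀ j (hj : 2 * j + 1 < 2 * t + 1 + 1), φ ⟨2 * j, by omega⟩ ∈ W ∧
        g (φ ⟨2 * j, by omega⟩) = g (φ ⟨0, by omega⟩) ∧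
        φ ⟨2 * j + 1, hj⟩ ∈ g (φ ⟨0, by omega⟩) := by
      intro j
      induction j with
      | zero =>
        intro hj
        refine ⟨h0, rfl, ?_⟩
        rcases hadj 0 (by omega) with h | h
        · exact h.2
        · exact absurd h0 (fun h' => (Finset.disjoint_left.1 (hg _ h.1)) h.2 h')
      | succ j ih =>
        intro hj
        obtain ⟨h1, h2, h3⟩ := ih (by omega)
        have h4 : φ ⟨2 * j + 1, by omega⟩ ∉ W := fun h' =>
          (Finset.disjoint_left.1 (hg _ h0)) h3 h'
        have h5 : φ ⟨2 * (j + 1), by omega⟩ ∈ W ∧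
            φ ⟨2 * j + 1, by omega⟩ ∈ g (φ ⟨2 * (j + 1), by omega⟩) := by
          rcases hadj (2 * j + 1) (by omega) with h | h
          · exact absurd h.1 h4
          · exact h
        have h6 : g (φ ⟨2 * (j + 1), by omega⟩) = g (φ ⟨0, by omega⟩) := by
          rcases hd _ h5.1 _ h0 with h | h
          · exact h
          · exact absurd h3 (Finset.disjoint_left.1 h h5.2)
        refine ⟨h5.1, h6, ?_⟩
        rcases hadj (2 * (j + 1)) (by omega) with h | h
        · rw [← h6]; exact h.2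
        · exact absurd h5.1 (fun h' => (Finset.disjoint_left.1 (hg _ h.1)) h.2 h')
    have hcard : t + 1 ≤ (g (φ ⟨0, by omega⟩)).card := by
      have h7 : (univ : Finset (Fin (t + 1))).card ≤ (g (φ ⟨0, by omega⟩)).card := by
        apply card_le_card_of_injOn
          (fun j : Fin (t + 1) => φ ⟨2 * j.val + 1, by have := j.isLt; omega⟩)
        · intro j _
          exact (key j.val (by have := j.isLt; omega)).2.2
        · intro j _ j' _ h
          have h8 := hinj h
          simp only [Fin.mk.injEq] at h8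
          exact Fin.ext (by omega)
      simpa using h7
    have := hs _ h0
    omega
  · have h1W : φ ⟨1, by omega⟩ ∈ W ∧ φ ⟨0, by omega⟩ ∈ g (φ ⟨1, by omega⟩) := by
      rcases hadj 0 (by omega) with h | h
      · exact absurd h.1 h0
      · exact h
    have key : ∀ j (hj : 2 * j + 1 < 2 * t + 1 + 1), φ ⟨2 * j + 1, hj⟩ ∈ W ∧
        g (φ ⟨2 * j + 1, hj⟩) = g (φ ⟨1, by omega⟩) ∧
        φ ⟨2 * j, by omega⟩ ∈ g (φ ⟨1, by omega⟩) := by
      intro j
      induction j with
      | zero =>
        intro hj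
        exact ⟨h1W.1, rfl, h1W.2⟩
      | succ j ih =>
        intro hj
        obtain ⟨h1, h2, h3⟩ := ih (by omega)
        have h4 : φ ⟨2 * (j + 1), by omega⟩ ∈ g (φ ⟨1, by omega⟩) := by
          rcases hadj (2 * j + 1) (by omega) with h | h
          · rw [← h2]; exact h.2
          · exact absurd h1 (fun h' => (Finset.disjoint_left.1 (hg _ h.1)) h.2 h')
        have h4' : φ ⟨2 * (j + 1), by omega⟩ ∉ W := fun h' =>
          (Finset.disjoint_left.1 (hg _ h1W.1)) h4 h'
        have h5 : φ ⟨2 * (j + 1) + 1, hj⟩ ∈ W ∧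
            φ ⟨2 * (j + 1), by omega⟩ ∈ g (φ ⟨2 * (j + 1) + 1, hj⟩) := by
          rcases hadj (2 * (j + 1)) hj with h | h
          · exact absurd h.1 h4'
          · exact h
        have h6 : g (φ ⟨2 * (j + 1) + 1, hj⟩) = g (φ ⟨1, by omega⟩) := by
          rcases hd _ h5.1 _ h1W.1 with h | h
          · exact h
          · exact absurd h4 (Finset.disjoint_left.1 h h5.2)
        exact ⟨h5.1, h6, h4⟩
    have hcard : t + 1 ≤ (g (φ ⟨1, by omega⟩)).card := by
      have h7 : (univ : Finset (Fin (t + 1))).card ≤ (g (φ ⟨1, by omega⟩)).card := by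
        apply card_le_card_of_injOn
          (fun j : Fin (t + 1) => φ ⟨2 * j.val, by have := j.isLt; omega⟩)
        · intro j _
          exact (key j.val (by have := j.isLt; omega)).2.2
        · intro j _ j' _ h
          have h8 := hinj h
          simp only [Fin.mk.injEq] at h8
          exact Fin.ext (by omega)
      simpa using h7
    have := hs _ h1W.1
    omega

omit [Fintype V] [DecidableEq V] in
theorem pieces_le (G : SimpleGraph V) (W : Finset V) (g : V → Finset V)
    (hg : ∀ v ∈ W, Disjoint (g v) W) (hG : ∀ v ∈ W, ∀ w ∈ g v, G.Adj v w) :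
    pieces W g hg ≤ G := by
  intro x y h
  rcases h with h | h
  · exact hG _ h.1 _ h.2
  · exact (hG _ h.1 _ h.2).symm

theorem mul_card_le_exIn (G : SimpleGraph V) (W : Finset V) (g : V → Finset V)
    (hg : ∀ v ∈ W, Disjoint (g v) W) (hG : ∀ v ∈ W, ∀ w ∈ g v, G.Adj v w)
    (s t : ℕ) (hst : s ≤ t) (hs : ∀ v ∈ W, (g v).card = s)
    (hd : ∀ v ∈ W, ∀ w ∈ W, g v = g w ∨ Disjoint (g v) (g w)) :
    s * W.card ≤ exIn G (path (2 * t + 1)) :=
  (pieces_card W g hg s hs).trans (le_exIn G _ _ (pieces_le G W g hg hG)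
    (pieces_free W g hg t (fun v hv => (hs v hv).le.trans hst) hd))

/-- There are fewer than `2 k` vertices which are not isolated. -/
theorem card_nonisolated (G : SimpleGraph V) (t k : ℕ) (ht : 1 ≤ t)
    (hk : exIn G (path (2 * t + 1)) < k) (X : Finset V) (hX : ∀ v ∈ X, ∃ w, G.Adj v w) :
    X.card < 2 * k := by
  classical
  obtain ⟨I, hI, hmax⟩ := Finset.exists_max_image
    (univ.filter (fun I : Finset V => ∀ x ∈ I, ∀ y ∈ I, ¬ G.Adj x y)) card ⟨∅, by simp⟩
  rw [mem_filter] at hI
  have hI2 := hI.2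
  -- vertices outside
  have h1 : ∀ v ∈ Iᶜ, ∃ w ∈ I, G.Adj v w := by
    intro v hv
    rw [mem_compl] at hv
    by_contra hcon
    push Not at hcon
    have := hmax (insert v I) (by
      rw [mem_filter]
      refine ⟨mem_univ _, ?_⟩
      intro x hx y hy
      rw [mem_insert] at hx hy
      rcases hx with rfl | hx
      · rcases hy with rfl | hy
        · exact G.irrefl
        · exact hcon y hy
      · rcases hy with rfl | hy
        · exact fun h => hcon x hx h.symm
        · exact hI2 x hx y hy)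
    rw [card_insert_of_notMem hv] at this
    omega
  choose! f hf1 hf2 using h1
  have h2 : 1 * (Iᶜ).card ≤ exIn G (path (2 * t + 1)) := by
    apply mul_card_le_exIn G Iᶜ (fun v => {f v}) _ _ 1 t ht _ _
    · intro v hv
      rw [Finset.disjoint_singleton_left, mem_compl, not_not]
      exact hf1 v hv
    · intro v hv w hw
      rw [mem_singleton] at hw
      rw [hw]
      exact hf2 v hv
    · intro v _
      simp
    · intro v _ w _
      by_cases h : f v = f w
      · left; rw [h]
      · right; simp [h]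
  choose! f' hf' using hX
  have h3 : 1 * (X ∩ I).card ≤ exIn G (path (2 * t + 1)) := by
    apply mul_card_le_exIn G (X ∩ I) (fun v => {f' v}) _ _ 1 t ht _ _
    · intro v hv
      rw [mem_inter] at hv
      rw [Finset.disjoint_singleton_left, mem_inter]
      rintro ⟨_, h⟩
      exact hI2 v hv.2 _ h (hf' v hv.1)
    · intro v hv w hw
      rw [mem_inter] at hv
      rw [mem_singleton] at hw
      rw [hw]
      exact hf' v hv.1
    · intro v _
      simp
    · intro v _ w _
      by_cases h : f' v = f' w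
      · left; rw [h]
      · right; simp [h]
  have h4 : X.card ≤ (X ∩ I).card + (Iᶜ).card := by
    have : X ⊆ (X ∩ I) ∪ Iᶜ := by
      intro x hx
      by_cases h : x ∈ I
      · exact mem_union_left _ (mem_inter.2 ⟨hx, h⟩)
      · exact mem_union_right _ (mem_compl.2 h)
    exact (card_le_card this).trans (card_union_le _ _)
  omega

/-! ### Covering the vertices of large degree -/

/-- the vertices of `U` none of whose neighbourhoods contains a member of `𝒮` -/
noncomputable def unc (G : SimpleGraph V) (U : Finset V) (𝒮 : Finset (Finset V)) : Finset V :=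
  open Classical in U.filter (fun v => ∀ S ∈ 𝒮, ¬ ∀ w ∈ S, G.Adj v w)

/-- Averaging: some `t`-set outside `D` is complete to many vertices of `U`. -/
theorem exists_set (G : SimpleGraph V) (X U D : Finset V) (t m : ℕ) (hm : t ≤ m)
    (hU : ∀ v ∈ U, ∃ N : Finset V, N ⊆ X \ D ∧ m ≤ N.card ∧ ∀ w ∈ N, G.Adj v w)
    (hne : U.Nonempty) :
    ∃ S : Finset V, S ⊆ X \ D ∧ S.card = t ∧
      U.card * m.choose t ≤
        (X.card.choose t) * (open Classical in U.filter (fun v => ∀ w ∈ S, G.Adj v w)).card := by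
  classical
  by_contra hcon
  push Not at hcon
  set P := powersetCard t (X \ D) with hP
  have hPne : P.Nonempty := by
    obtain ⟨v, hv⟩ := hne
    obtain ⟨N, hN1, hN2, _⟩ := hU v hv
    rw [hP, powersetCard_nonempty]
    exact hm.trans (hN2.trans (card_le_card hN1))
  have h1 : ∑ S ∈ P, (X.card.choose t) * (U.filter (fun v => ∀ w ∈ S, G.Adj v w)).card <
      ∑ S ∈ P, U.card * m.choose t := by
    apply sum_lt_sum_of_nonempty hPne
    intro S hS
    rw [hP, mem_powersetCard] at hS
    exact hcon S hS.1 hS.2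
  rw [← mul_sum, sum_const, smul_eq_mul] at h1
  have h2 : ∑ S ∈ P, (U.filter (fun v => ∀ w ∈ S, G.Adj v w)).card =
      ∑ v ∈ U, (P.filter (fun S => ∀ w ∈ S, G.Adj v w)).card := by
    simp only [card_filter]
    rw [sum_comm]
  have h3 : U.card * m.choose t ≤ ∑ v ∈ U, (P.filter (fun S => ∀ w ∈ S, G.Adj v w)).card := by
    rw [← smul_eq_mul, ← sum_const]
    apply sum_le_sum
    intro v hv
    obtain ⟨N, hN1, hN2, hN3⟩ := hU v hv
    calc m.choose t ≤ N.card.choose t := Nat.choose_le_choose t hN2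
      _ = (powersetCard t N).card := (card_powersetCard t N).symm
      _ ≤ _ := by
          apply card_le_card
          intro S hS
          rw [mem_powersetCard] at hS
          rw [mem_filter, hP, mem_powersetCard]
          exact ⟨⟨hS.1.trans hN1, hS.2⟩, fun w hw => hN3 w (hS.1 hw)⟩
  rw [h2] at h1
  have h4 : P.card ≤ X.card.choose t := by
    rw [hP, card_powersetCard]
    exact Nat.choose_le_choose t (card_le_card sdiff_subset)
  have h5 : P.card * (U.card * m.choose t) ≤ X.card.choose t *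
      ∑ v ∈ U, (P.filter (fun S => ∀ w ∈ S, G.Adj v w)).card := Nat.mul_le_mul h4 h3
  omega

theorem covering (G : SimpleGraph V) (X L : Finset V) (t m M : ℕ) (hm : t ≤ m)
    (hL : ∀ v ∈ L, ∃ N : Finset V, N ⊆ X ∧ m + t * M ≤ N.card ∧ ∀ w ∈ N, G.Adj v w) :
    ∀ j, j ≤ M → ∃ 𝒮 : Finset (Finset V), 𝒮.card ≤ j ∧ (∀ S ∈ 𝒮, S.card = t) ∧
      (∀ S ∈ 𝒮, ∀ S' ∈ 𝒮, S = S' ∨ Disjoint S S') ∧
      ((unc G L 𝒮).card : ℝ) ≤
        (1 - (m.choose t : ℝ) / (X.card.choose t : ℝ)) ^ j * L.card := by
  classical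
  intro j
  induction j with
  | zero =>
    intro _
    refine ⟨∅, by simp, by simp, by simp, ?_⟩
    simp only [pow_zero, one_mul]
    exact_mod_cast card_filter_le _ _
  | succ j ih =>
    intro hj
    obtain ⟨𝒮, h1, h2, h3, h4⟩ := ih (by omega)
    rcases (unc G L 𝒮).eq_empty_or_nonempty with hU | hU
    · refine ⟨𝒮, by omega, h2, h3, ?_⟩
      rw [hU]
      simp only [card_empty, Nat.cast_zero]
      -- nonneg
      rcases L.eq_empty_or_nonempty with hL0 | ⟨v, hv⟩
      · rw [hL0]; simp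
      · obtain ⟨N, hN1, hN2, _⟩ := hL v hv
        have h5 : m.choose t ≤ X.card.choose t :=
          Nat.choose_le_choose t (by have := card_le_card hN1; omega)
        have h6 : (m.choose t : ℝ) / (X.card.choose t : ℝ) ≤ 1 := by
          apply div_le_one_of_le₀
          · exact_mod_cast h5
          · positivity
        have h7 : 0 ≤ 1 - (m.choose t : ℝ) / (X.card.choose t : ℝ) := by linarith
        positivity
    · set D := 𝒮.biUnion id with hD
      have hDcard : D.card ≤ t * M := by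
        have h5 : D.card ≤ 𝒮.card * t := by
          apply card_biUnion_le_card_mul
          intro S hS
          exact (h2 S hS).le
        have h6 : 𝒮.card * t ≤ M * t := Nat.mul_le_mul_right t (by omega)
        rw [mul_comm t M]
        omega
      obtain ⟨S, hS1, hS2, hS3⟩ := exists_set G X (unc G L 𝒮) D t m hm (fun v hv => by
        unfold unc at hv
        rw [mem_filter] at hv
        obtain ⟨N, hN1, hN2, hN3⟩ := hL v hv.1
        refine ⟨N \ D, sdiff_subset_sdiff hN1 le_rfl, ?_, fun w hw => hN3 w (Finset.mem_sdiff.1 hw).1⟩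
        have := le_card_sdiff D N
        omega) hU
      have hdisj : ∀ S' ∈ 𝒮, Disjoint S S' := by
        intro S' hS'
        rw [Finset.disjoint_left]
        intro x hx hx'
        have := hS1 hx
        rw [Finset.mem_sdiff, hD, mem_biUnion] at this
        exact this.2 ⟨S', hS', hx'⟩
      refine ⟨insert S 𝒮, ?_, ?_, ?_, ?_⟩
      · exact (card_insert_le _ _).trans (by omega)
      · intro S' hS'
        rcases mem_insert.1 hS' with rfl | h
        · exact hS2
        · exact h2 S' h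
      · intro S₁ hS₁ S₂ hS₂
        rcases mem_insert.1 hS₁ with rfl | h
        · rcases mem_insert.1 hS₂ with rfl | h'
          · exact Or.inl rfl
          · exact Or.inr (hdisj S₂ h')
        · rcases mem_insert.1 hS₂ with rfl | h'
          · exact Or.inr (hdisj S₁ h).symm
          · exact h3 S₁ h S₂ h'
      · -- counting
        have h5 : (unc G L (insert S 𝒮)).card +
            ((unc G L 𝒮).filter (fun v => ∀ w ∈ S, G.Adj v w)).card ≤ (unc G L 𝒮).card := by
          rw [← card_union_of_disjoint]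
          · apply card_le_card
            intro v hv
            rcases mem_union.1 hv with h | h
            · unfold unc at h ⊢
              rw [mem_filter] at h ⊢
              exact ⟨h.1, fun S' hS' => h.2 S' (mem_insert_of_mem hS')⟩
            · exact (mem_filter.1 h).1
          · rw [Finset.disjoint_left]
            intro v hv hv'
            unfold unc at hv
            rw [mem_filter] at hv hv'
            exact hv.2 S (mem_insert_self _ _) hv'.2
        obtain ⟨v, hv⟩ := hU
        have hvL : v ∈ L := by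
          unfold unc at hv
          exact (mem_filter.1 hv).1
        obtain ⟨N, hN1, hN2, _⟩ := hL v hvL
        have hXm : m ≤ X.card := by have := card_le_card hN1; omega
        have hpos : 0 < X.card.choose t := Nat.choose_pos (hm.trans hXm)
        have hposr : (0 : ℝ) < (X.card.choose t : ℝ) := by exact_mod_cast hpos
        have h6 : ((unc G L 𝒮).card : ℝ) * (m.choose t : ℝ) ≤ (X.card.choose t : ℝ) *
            (((unc G L 𝒮).filter (fun v => ∀ w ∈ S, G.Adj v w)).card : ℝ) := by
          exact_mod_cast hS3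
        have h5' : ((unc G L (insert S 𝒮)).card : ℝ) +
            (((unc G L 𝒮).filter (fun v => ∀ w ∈ S, G.Adj v w)).card : ℝ) ≤
              ((unc G L 𝒮).card : ℝ) := by exact_mod_cast h5
        have h7 : ((unc G L (insert S 𝒮)).card : ℝ) ≤
            (1 - (m.choose t : ℝ) / (X.card.choose t : ℝ)) * ((unc G L 𝒮).card : ℝ) := by
          have h8 : ((unc G L 𝒮).card : ℝ) * (m.choose t : ℝ) / (X.card.choose t : ℝ) ≤
              (((unc G L 𝒮).filter (fun v => ∀ w ∈ S, G.Adj v w)).card : ℝ) := by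
            rw [div_le_iff₀ hposr]
            linarith
          have h9 : (1 - (m.choose t : ℝ) / (X.card.choose t : ℝ)) * ((unc G L 𝒮).card : ℝ) =
              ((unc G L 𝒮).card : ℝ) -
                ((unc G L 𝒮).card : ℝ) * (m.choose t : ℝ) / (X.card.choose t : ℝ) := by
            ring
          rw [h9]
          linarith
        have h10 : 0 ≤ 1 - (m.choose t : ℝ) / (X.card.choose t : ℝ) := by
          have h6 : (m.choose t : ℝ) / (X.card.choose t : ℝ) ≤ 1 := by
            apply div_le_one_of_le₀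
            · exact_mod_cast Nat.choose_le_choose t hXm
            · positivity
          linarith
        calc ((unc G L (insert S 𝒮)).card : ℝ) ≤
            (1 - (m.choose t : ℝ) / (X.card.choose t : ℝ)) * ((unc G L 𝒮).card : ℝ) := h7
          _ ≤ (1 - (m.choose t : ℝ) / (X.card.choose t : ℝ)) *
              ((1 - (m.choose t : ℝ) / (X.card.choose t : ℝ)) ^ j * L.card) := by gcongr
          _ = _ := by ring

/-- The main inequality: `ex(G, P_{2t+1})` is at least about `t` times the number of vertices of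
large degree. -/
theorem ex_ge (G : SimpleGraph V) (X L : Finset V) (t m M : ℕ) (hm : t ≤ m)
    (hL : ∀ v ∈ L, ∃ N : Finset V, N ⊆ X ∧ m + t * M ≤ N.card ∧ ∀ w ∈ N, G.Adj v w) :
    (t : ℝ) * (L.card - (1 - (m.choose t : ℝ) / (X.card.choose t : ℝ)) ^ M * L.card - t * M) ≤
      exIn G (path (2 * t + 1)) := by
  classical
  obtain ⟨𝒮, h1, h2, h3, h4⟩ := covering G X L t m M hm hL M le_rfl
  set D := 𝒮.biUnion id with hD
  have hDcard : D.card ≤ t * M := by
    have h5 : D.card ≤ 𝒮.card * t := by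
      apply card_biUnion_le_card_mul
      intro S hS
      exact (h2 S hS).le
    have h6 : 𝒮.card * t ≤ M * t := Nat.mul_le_mul_right t h1
    rw [mul_comm t M]
    omega
  set W := (L \ unc G L 𝒮) \ D with hW
  have hcov : ∀ v ∈ W, ∃ S ∈ 𝒮, ∀ w ∈ S, G.Adj v w := by
    intro v hv
    rw [hW, Finset.mem_sdiff, Finset.mem_sdiff] at hv
    by_contra hcon
    push Not at hcon
    apply hv.1.2
    unfold unc
    rw [mem_filter]
    refine ⟨hv.1.1, fun S hS => ?_⟩
    push Not
    exact hcon S hS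
  choose! g hg1 hg2 using hcov
  have h5 : t * W.card ≤ exIn G (path (2 * t + 1)) := by
    apply mul_card_le_exIn G W g _ hg2 t t le_rfl
    · intro v hv
      exact h2 _ (hg1 v hv)
    · intro v hv w hw
      exact h3 _ (hg1 v hv) _ (hg1 w hw)
    · intro v hv
      rw [Finset.disjoint_left]
      intro x hx hxW
      rw [hW, Finset.mem_sdiff] at hxW
      apply hxW.2
      rw [hD, mem_biUnion]
      exact ⟨_, hg1 v hv, hx⟩
  have h6 : L.card ≤ W.card + (unc G L 𝒮).card + D.card := by
    have : L ⊆ (W ∪ unc G L 𝒮) ∪ D := by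
      intro x hx
      rw [mem_union, mem_union, hW, Finset.mem_sdiff, Finset.mem_sdiff]
      tauto
    exact (card_le_card this).trans ((card_union_le _ _).trans
      (Nat.add_le_add_right (card_union_le _ _) _))
  have h7 : (L.card : ℝ) ≤ W.card + (unc G L 𝒮).card + D.card := by exact_mod_cast h6
  have h8 : (D.card : ℝ) ≤ t * M := by exact_mod_cast hDcard
  have h9 : ((t * W.card : ℕ) : ℝ) ≤ exIn G (path (2 * t + 1)) := by exact_mod_cast h5
  push_cast at h9
  refine le_trans ?_ h9
  gcongr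
  linarith

/-- Counting the edges by the vertices of large degree. -/
theorem edges_le (G : SimpleGraph V) (X L : Finset V) (d : ℕ)
    (hX : ∀ v, v ∉ X → ∀ w, ¬ G.Adj v w)
    (hd : ∀ v, v ∉ L → (open Classical in univ.filter (fun w => G.Adj v w)).card ≤ d) :
    2 * G.edgeSet.ncard ≤ L.card ^ 2 + 2 * (X.card * d) := by
  classical
  set N : V → Finset V := fun v => univ.filter (fun w => G.Adj v w) with hN
  have h1 : 2 * G.edgeSet.ncard = ∑ v, (N v).card := by
    have h2 := G.sum_degrees_eq_twice_card_edges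
    rw [← coe_edgeFinset, Set.ncard_coe_finset, ← h2]
    apply sum_congr rfl
    intro v _
    rw [← card_neighborFinset_eq_degree]
    congr 1
    ext w
    simp [hN]
  have h2 : ∑ v ∈ Lᶜ, (N v).card ≤ X.card * d := by
    have h3 : ∑ v ∈ Lᶜ, (N v).card ≤ ∑ v ∈ X, d := by
      calc ∑ v ∈ Lᶜ, (N v).card = ∑ v ∈ Lᶜ.filter (fun v => v ∈ X), (N v).card := by
            rw [sum_filter]
            apply sum_congr rfl
            intro v _
            by_cases hv : v ∈ X
            · rw [if_pos hv]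
            · rw [if_neg hv, card_eq_zero, hN]
              simp only [filter_eq_empty_iff, mem_univ, forall_const]
              exact fun w => hX v hv w
        _ ≤ ∑ v ∈ Lᶜ.filter (fun v => v ∈ X), d := by
            apply sum_le_sum
            intro v hv
            rw [mem_filter, mem_compl] at hv
            exact hd v hv.1
        _ ≤ ∑ v ∈ X, d := by
            apply sum_le_sum_of_subset
            intro v hv
            exact (mem_filter.1 hv).2
    simpa using h3
  have h3 : ∑ v ∈ L, (N v).card ≤ L.card ^ 2 + ∑ v ∈ Lᶜ, (N v).card := by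
    have h4 : ∀ v ∈ L, (N v).card ≤ L.card + (Lᶜ.filter (fun w => G.Adj v w)).card := by
      intro v _
      have h5 : N v ⊆ L ∪ Lᶜ.filter (fun w => G.Adj v w) := by
        intro w hw
        by_cases hwL : w ∈ L
        · exact mem_union_left _ hwL
        · apply mem_union_right
          rw [mem_filter, mem_compl]
          exact ⟨hwL, by simpa [hN] using hw⟩
      exact (card_le_card h5).trans (card_union_le _ _)
    refine (sum_le_sum h4).trans ?_
    rw [sum_add_distrib, sum_const, smul_eq_mul, sq]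
    gcongr
    have h5 : ∑ v ∈ L, (Lᶜ.filter (fun w => G.Adj v w)).card =
        ∑ w ∈ Lᶜ, (L.filter (fun v => G.Adj v w)).card := by
      simp only [card_filter]
      rw [sum_comm]
    rw [h5]
    apply sum_le_sum
    intro w _
    apply card_le_card
    intro v hv
    rw [mem_filter] at hv
    simp only [hN, mem_filter, mem_univ, true_and]
    exact hv.2.symm
  rw [h1, ← sum_add_sum_compl L]
  omega

end pieces

/-! ### The upper bound -/

theorem choose_ratio (a b t : ℕ) (h : t ≤ a) (hab : a ≤ b) (x : ℝ) (hx : 0 ≤ x)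
    (hxa : x * b ≤ a + 1 - t) (hb : 0 < b) :
    x ^ t ≤ (a.choose t : ℝ) / (b.choose t : ℝ) := by
  have h1 : (a + 1 - t) ^ t ≤ a.descFactorial t := Nat.pow_sub_le_descFactorial a t
  have h2 : b.descFactorial t ≤ b ^ t := Nat.descFactorial_le_pow b t
  rw [Nat.descFactorial_eq_factorial_mul_choose] at h1 h2
  have hpos : 0 < b.choose t := Nat.choose_pos (h.trans hab)
  have hposr : (0 : ℝ) < (b.choose t : ℝ) := by exact_mod_cast hpos
  rw [le_div_iff₀ hposr]
  have hbr : (0 : ℝ) < b := by exact_mod_cast hb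
  have hfac : (0 : ℝ) < (t.factorial : ℝ) := by exact_mod_cast t.factorial_pos
  have h1r : ((a : ℝ) + 1 - t) ^ t ≤ t.factorial * (a.choose t : ℝ) := by
    have : ((a + 1 - t : ℕ) : ℝ) = (a : ℝ) + 1 - t := by
      rw [Nat.cast_sub (by omega)]
      push_cast
      ring
    rw [← this]
    exact_mod_cast h1
  have h2r : (t.factorial : ℝ) * (b.choose t : ℝ) ≤ (b : ℝ) ^ t := by exact_mod_cast h2
  have h3 : (x * b) ^ t ≤ ((a : ℝ) + 1 - t) ^ t := by
    gcongr
  rw [mul_pow] at h3
  have h4 : x ^ t * (t.factorial * (b.choose t : ℝ)) ≤ t.factorial * (a.choose t : ℝ) := by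
    calc x ^ t * (t.factorial * (b.choose t : ℝ)) ≤ x ^ t * (b : ℝ) ^ t := by gcongr
      _ ≤ _ := h3.trans h1r
  have h5 : (t.factorial : ℝ) * (x ^ t * (b.choose t : ℝ)) ≤ t.factorial * (a.choose t : ℝ) := by
    linarith
  exact le_of_mul_le_mul_left h5 hfac

theorem numeric (t k M η ε x e y : ℝ) (ht : 1 ≤ t) (hk : 1 ≤ k) (hM : 0 ≤ M)
    (hη0 : 0 < η) (hη1 : η ≤ 1 / 2) (hη2 : η ≤ ε / 10) (hx0 : 0 ≤ x)
    (hx : t * ((1 - η) * x - t * M) ≤ k) (he : 2 * e ≤ x ^ 2 + 2 * y)
    (hy : y ≤ 2 * k * (η * k + (1 + t + t * M)))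
    (hkA : 2 * ((4 * t * M + 2 * (2 + t + t * M)) + 2 * t ^ 2 * M ^ 2) ≤ ε * k) :
    e ≤ (1 / (2 * t ^ 2) + ε) * k ^ 2 := by
  have ht0 : (0 : ℝ) < t := by linarith
  set s := k / t with hs
  have hks : k = s * t := by rw [hs]; field_simp
  have hs0 : 0 < s := by rw [hs]; positivity
  have hx1 : (1 - η) * x ≤ s + t * M := by
    have h1 : (1 - η) * x - t * M ≤ s := by
      rw [hs, le_div_iff₀ ht0]
      linarith
    linarith
  have hx2 : x ^ 2 ≤ (1 + 6 * η) * (s + t * M) ^ 2 := by
    have h1 : ((1 - η) * x) ^ 2 ≤ (s + t * M) ^ 2 := by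
      apply pow_le_pow_left₀
      · have : 0 ≤ 1 - η := by linarith
        positivity
      · exact hx1
    have h2 : x ^ 2 ≤ (1 + 6 * η) * ((1 - η) * x) ^ 2 := by
      have h3 : 1 ≤ (1 + 6 * η) * (1 - η) ^ 2 := by
        have h4 : (1 + 6 * η) * (1 - η) ^ 2 - 1 = η * ((1 - 2 * η) * (4 - 3 * η)) := by ring
        have h5 : 0 ≤ η * ((1 - 2 * η) * (4 - 3 * η)) := by
          apply mul_nonneg hη0.le
          apply mul_nonneg <;> linarith
        linarith
      have h6 : (1 + 6 * η) * ((1 - η) * x) ^ 2 = ((1 + 6 * η) * (1 - η) ^ 2) * x ^ 2 := by ring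
      rw [h6]
      have h7 := sq_nonneg x
      nlinarith
    refine h2.trans ?_
    gcongr
  have e1 : (1 / (2 * t ^ 2) + ε) * k ^ 2 = s ^ 2 / 2 + ε * k ^ 2 := by
    rw [hks]
    field_simp
  rw [e1]
  have hsk : s ≤ k := by rw [hks]; nlinarith
  have hs2 : s ^ 2 ≤ k ^ 2 := by gcongr
  have hsM : s * (t * M) = k * M := by rw [hks]; ring
  have f1 : x ^ 2 ≤ s ^ 2 + 6 * η * k ^ 2 + 4 * (2 * (k * M) + t ^ 2 * M ^ 2) := by
    have h1 : (1 + 6 * η) * (s + t * M) ^ 2 =
        s ^ 2 + 6 * η * s ^ 2 + (1 + 6 * η) * (2 * (s * (t * M)) + t ^ 2 * M ^ 2) := by ring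
    rw [h1, hsM] at hx2
    have h2 : 6 * η * s ^ 2 ≤ 6 * η * k ^ 2 := by gcongr
    have h3 : 0 ≤ 2 * (k * M) + t ^ 2 * M ^ 2 := by positivity
    have h4 : (1 + 6 * η) * (2 * (k * M) + t ^ 2 * M ^ 2) ≤
        4 * (2 * (k * M) + t ^ 2 * M ^ 2) := by
      apply mul_le_mul_of_nonneg_right _ h3
      linarith
    linarith
  have f2 : e ≤ s ^ 2 / 2 + 5 * (η * k ^ 2) + (4 * (k * M) + 2 * (t ^ 2 * M ^ 2) +
      2 * k * (1 + t + t * M)) := by
    nlinarith
  have f3 : 5 * (η * k ^ 2) ≤ ε / 2 * k ^ 2 := by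
    have : 0 ≤ k ^ 2 := by positivity
    nlinarith
  have f4 : 4 * (k * M) + 2 * (t ^ 2 * M ^ 2) + 2 * k * (1 + t + t * M) ≤
      ((4 * t * M + 2 * (2 + t + t * M)) + 2 * t ^ 2 * M ^ 2) * k := by
    have g1 : 4 * (k * M) ≤ 4 * t * M * k := by
      have : 0 ≤ k * M := by positivity
      nlinarith
    have g2 : 2 * (t ^ 2 * M ^ 2) ≤ 2 * t ^ 2 * M ^ 2 * k := by
      have : 0 ≤ t ^ 2 * M ^ 2 := by positivity
      nlinarith
    have g3 : 2 * k * (1 + t + t * M) ≤ 2 * (2 + t + t * M) * k := by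
      nlinarith
    linarith
  have f5 : ((4 * t * M + 2 * (2 + t + t * M)) + 2 * t ^ 2 * M ^ 2) * k ≤ ε / 2 * k ^ 2 := by
    nlinarith
  linarith

theorem upper (t : ℕ) (ht : 1 ≤ t) (ε : ℝ) (hε : 0 < ε) : ∃ k₀ : ℕ, ∀ k : ℕ, k₀ ≤ k →
    ∀ (n : ℕ) (G : SimpleGraph (Fin n)), exIn G (path (2 * t + 1)) < k →
      (G.edgeSet.ncard : ℝ) ≤ (1 / (2 * (t : ℝ) ^ 2) + ε) * (k : ℝ) ^ 2 := by
  classical
  set η : ℝ := min (ε / 10) (1 / 2) with hη
  have hη0 : 0 < η := by rw [hη]; positivity
  have hη1 : η ≤ 1 / 2 := min_le_right _ _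
  have hη2 : η ≤ ε / 10 := min_le_left _ _
  have hc0 : 0 < (η / 2) ^ t := by positivity
  have hc1 : (η / 2) ^ t ≤ 1 := pow_le_one₀ (by positivity) (by linarith)
  obtain ⟨M, hM⟩ : ∃ M : ℕ, (1 - (η / 2) ^ t) ^ M < η :=
    exists_pow_lt_of_lt_one hη0 (by linarith)
  have htr : (1 : ℝ) ≤ t := by exact_mod_cast ht
  set A : ℝ := 4 * (t : ℝ) * M + 2 * (2 + t + t * M) with hA
  set B : ℝ := 2 * (t : ℝ) ^ 2 * M ^ 2 with hB
  obtain ⟨k₀, hk₀⟩ := exists_nat_gt (2 * (A + B) / ε)
  refine ⟨k₀ + 1, fun k hk n G hG => ?_⟩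
  have hk1 : (1 : ℝ) ≤ k := by exact_mod_cast (by omega : 1 ≤ k)
  have hkpos : 0 < k := by omega
  have hkA : 2 * (A + B) ≤ ε * k := by
    have h1 : 2 * (A + B) / ε < k := lt_of_lt_of_le hk₀ (by exact_mod_cast (by omega : k₀ ≤ k))
    rw [div_lt_iff₀ hε] at h1
    linarith
  set X : Finset (Fin n) := univ.filter (fun v => ∃ w, G.Adj v w) with hX
  have hXcard : X.card < 2 * k := card_nonisolated G t k ht hG X (fun v hv => by
    rw [hX, mem_filter] at hv
    exact hv.2)
  set m := ⌈η * k⌉₊ + t with hm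
  set d := m + t * M with hd
  set L : Finset (Fin n) := univ.filter (fun v => d ≤ (univ.filter (fun w => G.Adj v w)).card)
    with hL
  have hedges := edges_le G X L d (fun v hv w hw => hv (by
    rw [hX, mem_filter]; exact ⟨mem_univ _, w, hw⟩)) (fun v hv => by
      rw [hL, mem_filter] at hv
      push Not at hv
      have h1 := hv (mem_univ _)
      refine le_of_eq_of_le ?_ h1.le
      congr!)
  have hLN : ∀ v ∈ L, ∃ N : Finset (Fin n), N ⊆ X ∧ m + t * M ≤ N.card ∧ ∀ w ∈ N, G.Adj v w := by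
    intro v hv
    rw [hL, mem_filter] at hv
    refine ⟨univ.filter (fun w => G.Adj v w), ?_, hv.2, fun w hw => (mem_filter.1 hw).2⟩
    intro w hw
    rw [mem_filter] at hw
    rw [hX, mem_filter]
    exact ⟨mem_univ _, v, hw.2.symm⟩
  have hge := ex_ge G X L t m M (by omega) hLN
  have hceil := Nat.le_ceil (η * k)
  have hceil2 : (⌈η * k⌉₊ : ℝ) < η * k + 1 := Nat.ceil_lt_add_one (by positivity)
  -- the number of vertices of large degree
  have hLbound : (t : ℝ) * ((1 - η) * L.card - t * M) ≤ k := by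
    rcases L.eq_empty_or_nonempty with h0 | ⟨v, hv⟩
    · rw [h0]
      simp only [card_empty, Nat.cast_zero, mul_zero, zero_sub]
      have : (t : ℝ) * -(t * M) ≤ 0 := by
        have : (0 : ℝ) ≤ t * (t * M) := by positivity
        linarith
      linarith
    · obtain ⟨N, hN1, hN2, _⟩ := hLN v hv
      have hmX : m ≤ X.card := by have := card_le_card hN1; omega
      have hratio : (η / 2) ^ t ≤ (m.choose t : ℝ) / (X.card.choose t : ℝ) := by
        apply choose_ratio m X.card t (by omega) hmX (η / 2) (by positivity)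
        · have h1 : (X.card : ℝ) ≤ 2 * k := by exact_mod_cast hXcard.le
          have h2 : (m : ℝ) = ⌈η * k⌉₊ + t := by rw [hm]; push_cast; ring
          rw [h2]
          have h3 : η / 2 * X.card ≤ η / 2 * (2 * k) := by gcongr
          linarith
        · omega
      have h5 : (m.choose t : ℝ) / (X.card.choose t : ℝ) ≤ 1 := by
        apply div_le_one_of_le₀
        · exact_mod_cast Nat.choose_le_choose t hmX
        · positivity
      have h6 : (1 - (m.choose t : ℝ) / (X.card.choose t : ℝ)) ^ M ≤ η := by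
        refine le_trans ?_ hM.le
        gcongr
      have h7 : (exIn G (path (2 * t + 1)) : ℝ) ≤ k := by exact_mod_cast hG.le
      refine le_trans ?_ (hge.trans h7)
      gcongr
      have : (1 - (m.choose t : ℝ) / (X.card.choose t : ℝ)) ^ M * (L.card : ℝ) ≤ η * L.card := by
        gcongr
      linarith
  have hd2 : (d : ℝ) ≤ η * k + (1 + t + t * M) := by
    rw [hd, hm]
    push_cast
    linarith
  have hedges' : 2 * (G.edgeSet.ncard : ℝ) ≤ (L.card : ℝ) ^ 2 + 2 * ((X.card : ℝ) * d) := by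
    exact_mod_cast hedges
  have hXr : (X.card : ℝ) ≤ 2 * k := by exact_mod_cast hXcard.le
  have hXd : (X.card : ℝ) * d ≤ 2 * k * (η * k + (1 + t + t * M)) := by
    gcongr
  exact numeric t k M η ε L.card _ _ htr hk1 (by positivity) hη0 hη1 hη2 (by positivity)
    hLbound hedges' hXd hkA

/-! ### The lower bound -/

theorem path_isTree (l : ℕ) : (path l).IsTree := by
  rw [isTree_iff_connected_and_card]
  refine ⟨pathGraph_connected l, ?_⟩
  have h1 : Nat.card (path l).edgeSet + 1 ≤ Nat.card (Fin (l + 1)) := by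
    have h2 : (path l).edgeSet ⊆ Set.range (fun i : Fin l => s(i.castSucc, i.succ)) := by
      intro e
      refine Sym2.ind (fun x y => ?_) e
      intro h
      rw [mem_edgeSet, pathGraph_adj] at h
      rcases h with h | h
      · refine ⟨⟨x.val, by have := y.isLt; omega⟩, ?_⟩
        rw [Sym2.eq_iff]
        left
        exact ⟨Fin.ext rfl, Fin.ext (by simpa using h)⟩
      · refine ⟨⟨y.val, by have := x.isLt; omega⟩, ?_⟩
        rw [Sym2.eq_iff]
        right
        exact ⟨Fin.ext rfl, Fin.ext (by simpa using h)⟩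
    have h3 : Nat.card (path l).edgeSet ≤ Nat.card (Set.range
        (fun i : Fin l => s(i.castSucc, i.succ))) :=
      Nat.card_mono (Set.toFinite _) h2
    have h4 : Nat.card (Set.range (fun i : Fin l => s(i.castSucc, i.succ))) ≤ Nat.card (Fin l) :=
      Finite.card_range_le _
    have h5 : Nat.card (Fin l) = l := by simp
    have h6 : Nat.card (Fin (l + 1)) = l + 1 := by simp
    omega
  exact le_antisymm h1 (pathGraph_connected l).card_vert_le_card_edgeSet_add_one

theorem exIn_top_le (t m : ℕ) (ht : 1 ≤ t) :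
    exIn (⊤ : SimpleGraph (Fin m)) (path (2 * t + 1)) ≤ t * m := by
  classical
  unfold exIn
  apply csSup_le
  · refine ⟨_, ⊥, bot_le, ?_, rfl⟩
    rintro ⟨φ⟩
    have h : (path (2 * t + 1)).Adj ⟨0, by omega⟩ ⟨1, by omega⟩ := by
      rw [pathGraph_adj]; left; rfl
    exact φ.toHom.map_adj h
  · rintro e ⟨H, -, hH, rfl⟩
    by_contra hcon
    push Not at hcon
    apply hH
    have hc : H.edgeSet.ncard = H.edgeFinset.card := by
      rw [← coe_edgeFinset, Set.ncard_coe_finset]
    rw [hc] at hcon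
    obtain ⟨f, hf⟩ := ES903.erdos_sos H (2 * t + 1) (by
      rw [Fintype.card_fin]
      have : (2 * t + 1 - 1) * m = 2 * (t * m) := by
        rw [Nat.add_sub_cancel]; ring
      omega) (path (2 * t + 1)) (path_isTree _) (by simp)
    exact ⟨⟨f, fun h => hf _ _ h⟩, f.injective⟩

theorem lower_mem (t k : ℕ) (ht : 1 ≤ t) (hk : 1 ≤ k) :
    ((k - 1) / t).choose 2 ∈ hosts k (path (2 * t + 1)) := by
  classical
  refine ⟨(k - 1) / t, ⊤, ?_, ?_⟩
  · have h1 := exIn_top_le t ((k - 1) / t) ht
    have h2 := Nat.mul_div_le (k - 1) t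
    omega
  · rw [← coe_edgeFinset, Set.ncard_coe_finset, card_edgeFinset_top_eq_card_choose_two,
      Fintype.card_fin]

/-- The numbers of edges of the hosts are bounded, so that `exInv` is a maximum. -/
theorem hosts_bdd (t k : ℕ) (ht : 1 ≤ t) : BddAbove (hosts k (path (2 * t + 1))) := by
  obtain ⟨k₀, hk₀⟩ := upper t ht 1 one_pos
  obtain ⟨B, hB⟩ := exists_nat_ge ((1 / (2 * (t : ℝ) ^ 2) + 1) * ((max k k₀ : ℕ) : ℝ) ^ 2)
  refine ⟨B, ?_⟩
  rintro e ⟨n, G, hG, rfl⟩
  have := hk₀ (max k k₀) (le_max_right _ _) n G (lt_of_lt_of_le hG (le_max_left _ _))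
  exact_mod_cast this.trans hB

theorem choose_bounds (t k : ℕ) (ht : 1 ≤ t) (hk : 1 ≤ k) :
    (k : ℝ) ^ 2 / (2 * t ^ 2) - 2 * k ≤ (((k - 1) / t).choose 2 : ℝ) ∧
    ((k / t).choose 2 : ℝ) ≤ (k : ℝ) ^ 2 / (2 * t ^ 2) := by
  have htr : (1 : ℝ) ≤ t := by exact_mod_cast ht
  have ht0 : (0 : ℝ) < t := by linarith
  have hkr : (1 : ℝ) ≤ k := by exact_mod_cast hk
  set s : ℝ := (k : ℝ) / t with hs
  have hs0 : 0 < s := by rw [hs]; positivity
  have hsq : (k : ℝ) ^ 2 / (2 * t ^ 2) = s ^ 2 / 2 := by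
    rw [hs]; field_simp
  rw [hsq]
  have hsk : s ≤ k := div_le_self (by linarith) htr
  constructor
  · rw [Nat.cast_choose_two]
    have h1 : s - 1 ≤ (((k - 1) / t : ℕ) : ℝ) := by
      have h2 : k ≤ t * ((k - 1) / t) + t := by
        have h3 := Nat.div_add_mod (k - 1) t
        have h4 := Nat.mod_lt (k - 1) (show 0 < t by omega)
        omega
      have h3 : (k : ℝ) ≤ t * (((k - 1) / t : ℕ) : ℝ) + t := by exact_mod_cast h2
      rw [hs, sub_le_iff_le_add, div_le_iff₀ ht0]
      linarith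
    set m : ℝ := (((k - 1) / t : ℕ) : ℝ) with hm
    have hm0 : 0 ≤ m := by rw [hm]; positivity
    by_cases hs1 : 3 / 2 ≤ s
    · have h5 : 0 ≤ (m - (s - 1)) * (m + (s - 1) - 1) := by
        apply mul_nonneg <;> linarith
      nlinarith
    · push Not at hs1
      have hmm : 0 ≤ m * (m - 1) / 2 := by
        have : 0 ≤ m * (m - 1) := by
          rcases Nat.eq_zero_or_pos ((k - 1) / t) with h | h
          · rw [hm, h]; simp
          · have : (1 : ℝ) ≤ m := by rw [hm]; exact_mod_cast h
            nlinarith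
        linarith
      nlinarith
  · rw [Nat.cast_choose_two]
    have h1 : ((k / t : ℕ) : ℝ) ≤ s := Nat.cast_div_le
    have h0 : (0 : ℝ) ≤ ((k / t : ℕ) : ℝ) := by positivity
    nlinarith

/-- **Q1 holds.** For every `t ≥ 1`, `ex⁻¹(k, P_{2t+1}) = C(⌊k/t⌋, 2) + o(k²)`. -/
theorem result : ∀ t : ℕ, 1 ≤ t →
    (∀ k, BddAbove (hosts k (path (2 * t + 1)))) ∧
    Tendsto (fun k : ℕ => ((exInv k (path (2 * t + 1)) : ℝ) - ((k / t).choose 2 : ℝ)) / (k : ℝ) ^ 2)
      atTop (nhds 0) := by
  intro t ht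
  refine ⟨fun k => hosts_bdd t k ht, ?_⟩
  rw [Metric.tendsto_atTop]
  intro ε hε
  obtain ⟨k₀, hk₀⟩ := upper t ht (ε / 4) (by positivity)
  obtain ⟨k₁, hk₁⟩ := exists_nat_gt (8 / ε)
  refine ⟨max (max k₀ k₁) 1, fun k hk => ?_⟩
  have hk0 : k₀ ≤ k := by omega
  have hk1 : k₁ ≤ k := by omega
  have hk2 : 1 ≤ k := by omega
  have hkr : (1 : ℝ) ≤ k := by exact_mod_cast hk2
  have hkε : 8 ≤ ε * k := by
    have h1 : 8 / ε < k := lt_of_lt_of_le hk₁ (by exact_mod_cast hk1)
    rw [div_lt_iff₀ hε] at h1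
    linarith
  obtain ⟨h1, h2⟩ := choose_bounds t k ht hk2
  have h3 : (((k - 1) / t).choose 2 : ℝ) ≤ (exInv k (path (2 * t + 1)) : ℝ) := by
    exact_mod_cast le_csSup (hosts_bdd t k ht) (lower_mem t k ht hk2)
  have h4 : (exInv k (path (2 * t + 1)) : ℝ) ≤ (1 / (2 * (t : ℝ) ^ 2) + ε / 4) * (k : ℝ) ^ 2 := by
    have hne : (hosts k (path (2 * t + 1))).Nonempty := ⟨_, lower_mem t k ht hk2⟩
    obtain ⟨n, G, hG, he⟩ := Nat.sSup_mem hne (hosts_bdd t k ht)
    have := hk₀ k hk0 n G hG
    unfold exInv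
    rw [← he]
    exact this
  have h5 : (((k - 1) / t).choose 2 : ℝ) ≤ ((k / t).choose 2 : ℝ) := by
    exact_mod_cast Nat.choose_le_choose 2 (Nat.div_le_div_right (by omega))
  have h6 : (1 / (2 * (t : ℝ) ^ 2) + ε / 4) * (k : ℝ) ^ 2 =
      (k : ℝ) ^ 2 / (2 * t ^ 2) + ε / 4 * (k : ℝ) ^ 2 := by ring
  rw [h6] at h4
  have h7 : 2 * (k : ℝ) ≤ ε / 4 * (k : ℝ) ^ 2 := by nlinarith
  rw [Real.dist_eq, sub_zero, abs_div, abs_of_nonneg (by positivity : (0 : ℝ) ≤ (k : ℝ) ^ 2),
    div_lt_iff₀ (by positivity)]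
  rw [abs_lt]
  have h8 : 0 < ε * (k : ℝ) ^ 2 := by positivity
  constructor <;> linarith

end Pool.Agent.Results.MP_002b89_co.OddPaths
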